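import Mathlib

/-! # Asymmetric families of integer vectors -/

set_option autoImplicit false

namespace Pool.Agent.Work.MP_7da6af_nt.Rat2

/-- the orders of the coordinates at the cusps `aᵢ` and infinity -/
def cusp' {s ν : ℕ} (n : Fin s → Fin ν → ℤ) : Option (Fin s) → Fin ν → ℤ
  | some i => n i
  | none => -∑ i, n i

/-- the vector of a cusp as a real vector -/
def rcusp {s ν : ℕ} (n : Fin s → Fin ν → ℤ) (j : Option (Fin s)) : Fin ν → ℝ :=
  fun l => (cusp' n j l : ℝ)

/-- For every real subspace `W` of codimension two, some cusp has a vector whose image modulo `W`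
is not zero and has no negative multiple among the images of the vectors of the cusps. -/
def AsymW {s ν : ℕ} (n : Fin s → Fin ν → ℤ) : Prop :=
  ∀ W : Submodule ℝ (Fin ν → ℝ), Module.finrank ℝ W + 2 = ν →
    ∃ i : Option (Fin s), rcusp n i ∉ W ∧ ∀ (j : Option (Fin s)) (x : ℝ), 0 < x →
      rcusp n j + x • rcusp n i ∉ W

/-- a linear map to the plane with a given kernel of codimension two -/
theorem exists_map {ν : ℕ} (W : Submodule ℝ (Fin ν → ℝ)) (hW : Module.finrank ℝ W + 2 = ν) :
    ∃ L : (Fin ν → ℝ) →ₗ[ℝ] (Fin 2 → ℝ), Function.Surjective L ∧ ∀ v, L v = 0 ↔ v ∈ W := by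
  have h1 := W.finrank_quotient_add_finrank
  rw [Module.finrank_fin_fun] at h1
  have h2 : Module.finrank ℝ ((Fin ν → ℝ) ⧸ W) = Module.finrank ℝ (Fin 2 → ℝ) := by
    rw [Module.finrank_fin_fun]
    omega
  refine ⟨(LinearEquiv.ofFinrankEq _ _ h2).toLinearMap ∘ₗ W.mkQ, ?_, fun v => ?_⟩
  · exact (LinearEquiv.surjective _).comp W.mkQ_surjective
  · rw [LinearMap.comp_apply, LinearEquiv.coe_coe, LinearEquiv.map_eq_zero_iff,
      Submodule.mkQ_apply, Submodule.Quotient.mk_eq_zero]

/-- the determinant of two vectors of the plane -/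
def dt (x y : Fin 2 → ℝ) : ℝ := x 0 * y 1 - x 1 * y 0

theorem dt_eq_zero {x y : Fin 2 → ℝ} (hx : x ≠ 0) (h : dt x y = 0) : ∃ r : ℝ, y = r • x := by
  unfold dt at h
  by_cases h0 : x 0 = 0
  · have h1 : x 1 ≠ 0 := by
      intro h1
      apply hx
      funext i
      fin_cases i
      · exact h0
      · exact h1
    rw [h0, zero_mul, zero_sub, neg_eq_zero] at h
    have h2 : y 0 = 0 := (mul_eq_zero.mp h).resolve_left h1
    refine ⟨y 1 / x 1, ?_⟩
    funext i
    fin_cases i
    · show y 0 = y 1 / x 1 * x 0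
      rw [h0, h2, mul_zero]
    · show y 1 = y 1 / x 1 * x 1
      field_simp
  · refine ⟨y 0 / x 0, ?_⟩
    funext i
    fin_cases i
    · show y 0 = y 0 / x 0 * x 0
      field_simp
    · show y 1 = y 0 / x 0 * x 1
      field_simp
      linarith

/-- the exponents of an example -/
def exv {ν : ℕ} (K : Fin ν × Fin ν → ℕ) (t : Σ ij : Fin ν × Fin ν, Fin (K ij)) : Fin ν → ℤ :=
  Pi.single t.1.1 1 + (t.2 : ℤ) • Pi.single t.1.2 1

theorem exv_nonneg {ν : ℕ} (K : Fin ν × Fin ν → ℕ) (t : Σ ij : Fin ν × Fin ν, Fin (K ij))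
    (l : Fin ν) : 0 ≤ exv K t l := by
  unfold exv
  rw [Pi.add_apply, Pi.smul_apply, smul_eq_mul]
  have h : ∀ i : Fin ν, (0 : ℤ) ≤ (Pi.single i 1 : Fin ν → ℤ) l := by
    intro i
    rw [Pi.single_apply]
    split_ifs <;> norm_num
  have := h t.1.1
  have := h t.1.2
  positivity

theorem exv_pos {ν : ℕ} (K : Fin ν × Fin ν → ℕ) (t : Σ ij : Fin ν × Fin ν, Fin (K ij)) :
    0 < exv K t t.1.1 := by
  unfold exv
  rw [Pi.add_apply, Pi.smul_apply, smul_eq_mul, Pi.single_eq_same]
  have h : (0 : ℤ) ≤ (Pi.single t.1.2 1 : Fin ν → ℤ) t.1.1 := by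
    rw [Pi.single_apply]
    split_ifs <;> norm_num
  positivity

/-- in every dimension there are curves with nonzero asymmetric vectors at the cusps -/
theorem exists_asymW (ν : ℕ) (hν : 0 < ν) : ∃ (s : ℕ) (n : Fin s → Fin ν → ℤ),
    (∀ j, cusp' n j ≠ 0) ∧ AsymW n := by
  classical
  set B : ℕ := ν * ν + 2 with hB
  let o : Fin ν × Fin ν ≃ Fin (ν * ν) := finProdFinEquiv
  let K : Fin ν × Fin ν → ℕ := fun ij => B ^ ((o ij : ℕ) + 1)
  let e : Fin (Fintype.card (Σ ij : Fin ν × Fin ν, Fin (K ij))) ≃
      (Σ ij : Fin ν × Fin ν, Fin (K ij)) := (Fintype.equivFin _).symm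
  have hB0 : 0 < B := by omega
  refine ⟨_, fun t => exv K (e t), ?_, ?_⟩
  · rintro (_ | i)
    · intro h
      have h1 := congrFun h ⟨0, hν⟩
      simp only [cusp', Pi.neg_apply, Finset.sum_apply, Pi.zero_apply, neg_eq_zero] at h1
      rw [Finset.sum_eq_zero_iff_of_nonneg (fun t _ => exv_nonneg K _ _)] at h1
      have h2 := h1 (e.symm ⟨(⟨0, hν⟩, ⟨0, hν⟩), ⟨0, Nat.pow_pos hB0⟩⟩) (Finset.mem_univ _)
      rw [Equiv.apply_symm_apply] at h2
      have h3 := exv_pos K ⟨(⟨0, hν⟩, ⟨0, hν⟩), ⟨0, Nat.pow_pos hB0⟩⟩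
      simp only at h3
      omega
    · intro h
      have h1 := congrFun h (e i).1.1
      have h2 := exv_pos K (e i)
      simp only [cusp', Pi.zero_apply] at h1
      omega
  · intro W hW
    obtain ⟨L, hL, hLW⟩ := exists_map W hW
    let x : Fin ν → (Fin 2 → ℝ) := fun i => L (Pi.single i 1)
    set n : Fin (Fintype.card (Σ ij : Fin ν × Fin ν, Fin (K ij))) → Fin ν → ℤ :=
      fun t => exv K (e t) with hn
    by_contra hcon
    push Not at hcon
    have hLv : ∀ t : (Σ ij : Fin ν × Fin ν, Fin (K ij)),
        L (rcusp n (some (e.symm t))) = x t.1.1 + ((t.2 : ℕ) : ℝ) • x t.1.2 := by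
      intro t
      have h1 : rcusp n (some (e.symm t)) =
          (Pi.single t.1.1 1 : Fin ν → ℝ) + ((t.2 : ℕ) : ℝ) • (Pi.single t.1.2 1 : Fin ν → ℝ) := by
        funext l
        show ((exv K (e (e.symm t)) l : ℤ) : ℝ) = _
        rw [Equiv.apply_symm_apply]
        simp only [exv, Pi.add_apply, Pi.smul_apply, smul_eq_mul, Pi.single_apply]
        push_cast
        rfl
      rw [h1, map_add, map_smul]
    -- an independent pair
    have hind : ∃ ij : Fin ν × Fin ν, dt (x ij.1) (x ij.2) ≠ 0 := by
      by_contra hno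
      push Not at hno
      have hno' : ∀ i j, dt (x i) (x j) = 0 := fun i j => hno (i, j)
      obtain ⟨v, hv⟩ := hL ![1, 0]
      obtain ⟨w, hw⟩ := hL ![0, 1]
      have hsum : ∀ v : Fin ν → ℝ, ∀ r, L v r = ∑ i, v i * x i r := by
        intro v r
        have h1 : v = ∑ i, v i • (Pi.single i 1 : Fin ν → ℝ) := by
          funext l
          rw [Finset.sum_apply, Finset.sum_eq_single l]
          · simp
          · intro b _ hb
            rw [Pi.smul_apply, Pi.single_eq_of_ne hb.symm, smul_zero]
          · intro h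
            exact absurd (Finset.mem_univ _) h
        conv_lhs => rw [h1, map_sum, Finset.sum_apply]
        refine Finset.sum_congr rfl fun i _ => ?_
        rw [map_smul]
        rfl
      have h0 : dt (L v) (L w) = 0 := by
        unfold dt
        rw [hsum, hsum, hsum, hsum, Finset.sum_mul_sum, Finset.sum_mul_sum,
          ← Finset.sum_sub_distrib]
        refine Finset.sum_eq_zero fun i _ => ?_
        rw [← Finset.sum_sub_distrib]
        refine Finset.sum_eq_zero fun j _ => ?_
        have := hno' i j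
        unfold dt at this
        linear_combination v i * w j * this
      rw [hv, hw] at h0
      simp [dt] at h0
    obtain ⟨ij, hij, hmax⟩ : ∃ ij : Fin ν × Fin ν, dt (x ij.1) (x ij.2) ≠ 0 ∧
        ∀ ij', dt (x ij'.1) (x ij'.2) ≠ 0 → o ij' ≤ o ij := by
      obtain ⟨ij, h1, h2⟩ := Finset.exists_max_image
        (Finset.univ.filter fun ij : Fin ν × Fin ν => dt (x ij.1) (x ij.2) ≠ 0) (fun ij => o ij)
        (by
          obtain ⟨ij, h⟩ := hind
          exact ⟨ij, Finset.mem_filter.mpr ⟨Finset.mem_univ _, h⟩⟩)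
      exact ⟨ij, (Finset.mem_filter.mp h1).2, fun ij' h =>
        h2 ij' (Finset.mem_filter.mpr ⟨Finset.mem_univ _, h⟩)⟩
    -- the opposite vectors
    have hopp : ∀ k : Fin (K ij), ∃ (j : Option (Fin (Fintype.card
        (Σ ij : Fin ν × Fin ν, Fin (K ij))))) (r : ℝ), 0 < r ∧
        L (rcusp n j) = -(r • (x ij.1 + ((k : ℕ) : ℝ) • x ij.2)) := by
      intro k
      have h1 := hLv ⟨ij, k⟩
      simp only at h1
      have h2 : rcusp n (some (e.symm ⟨ij, k⟩)) ∉ W := by
        rw [← hLW, h1]
        intro h0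
        apply hij
        have e0 := congrFun h0 0
        have e1 := congrFun h0 1
        simp only [Pi.add_apply, Pi.smul_apply, smul_eq_mul, Pi.zero_apply] at e0 e1
        unfold dt
        linear_combination x ij.2 1 * e0 - x ij.2 0 * e1
      obtain ⟨j, r, hr, hj⟩ := hcon _ h2
      refine ⟨j, r, hr, ?_⟩
      rw [← hLW, map_add, map_smul, h1] at hj
      exact eq_neg_of_add_eq_zero_left hj
    choose f r hr hf using hopp
    have hkey : ∀ k l : Fin (K ij), dt (L (rcusp n (f k))) (L (rcusp n (f l))) = 0 → k = l := by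
      intro k l h
      rw [hf, hf] at h
      unfold dt at h hij
      simp only [Pi.neg_apply, Pi.smul_apply, Pi.add_apply, smul_eq_mul] at h
      have h1 : r k * r l * (((l : ℕ) : ℝ) - ((k : ℕ) : ℝ)) *
          (x ij.1 0 * x ij.2 1 - x ij.1 1 * x ij.2 0) = 0 := by linear_combination h
      have h2 := (mul_eq_zero.mp h1).resolve_right hij
      have h3 := (mul_eq_zero.mp h2).resolve_left (mul_ne_zero (hr k).ne' (hr l).ne')
      have h4 : ((l : ℕ) : ℝ) = ((k : ℕ) : ℝ) := sub_eq_zero.mp h3
      exact (Fin.ext (by exact_mod_cast h4)).symm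
    -- the classes of the opposite vectors
    let T := Option ((Fin ν × Fin ν) ⊕ (Fin (o ij : ℕ) × Fin (B ^ (o ij : ℕ))))
    let g : Fin (K ij) → T := fun k => match f k with
      | none => none
      | some t => if h : (o (e t).1 : ℕ) < (o ij : ℕ) then
          some (Sum.inr (⟨o (e t).1, h⟩, ⟨(e t).2, by
            refine lt_of_lt_of_le (e t).2.isLt ?_
            exact Nat.pow_le_pow_right hB0 h⟩))
        else some (Sum.inl (e t).1)
    have hg : Function.Injective g := by
      intro k l hkl
      apply hkey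
      have hdself : ∀ z : Fin 2 → ℝ, dt z z = 0 := fun z => by
        unfold dt
        ring
      simp only [g] at hkl
      rcases hk : f k with _ | t <;> rcases hl : f l with _ | t' <;> rw [hk, hl] at hkl <;>
        simp only at hkl
      · exact hdself _
      · split_ifs at hkl
      · split_ifs at hkl
      · have e1 : L (rcusp n (some t)) = x (e t).1.1 + (((e t).2 : ℕ) : ℝ) • x (e t).1.2 := by
          have := hLv (e t)
          rwa [Equiv.symm_apply_apply] at this
        have e2 : L (rcusp n (some t')) = x (e t').1.1 + (((e t').2 : ℕ) : ℝ) • x (e t').1.2 := by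
          have := hLv (e t')
          rwa [Equiv.symm_apply_apply] at this
        obtain ⟨A, hA⟩ : ∃ A : ℝ, (((e t).2 : ℕ) : ℝ) = A := ⟨_, rfl⟩
        obtain ⟨A', hA'⟩ : ∃ A' : ℝ, (((e t').2 : ℕ) : ℝ) = A' := ⟨_, rfl⟩
        rw [hA] at e1
        rw [hA'] at e2
        by_cases h1 : (o (e t).1 : ℕ) < (o ij : ℕ) <;>
          by_cases h2 : (o (e t').1 : ℕ) < (o ij : ℕ)
        · rw [dif_pos h1, dif_pos h2] at hkl
          replace hkl := Option.some.inj hkl
          simp only [Sum.inr.injEq, Prod.mk.injEq, Fin.mk.injEq] at hkl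
          obtain ⟨h3, h4⟩ := hkl
          have h5 : (e t).1 = (e t').1 := o.injective (Fin.ext h3)
          have h6 : A = A' := by rw [← hA, ← hA', h4]
          rw [e1, e2, h5, h6]
          exact hdself _
        · rw [dif_pos h1, dif_neg h2] at hkl
          exact absurd (Option.some.inj hkl) Sum.inr_ne_inl
        · rw [dif_neg h1, dif_pos h2] at hkl
          exact absurd (Option.some.inj hkl) Sum.inl_ne_inr
        · rw [dif_neg h1, dif_neg h2] at hkl
          replace hkl := Sum.inl.inj (Option.some.inj hkl)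
          by_cases h3 : (e t).1 = ij
          · exfalso
            have h4 := hf k
            rw [hk, e1, h3] at h4
            have h5 : (1 + r k) * dt (x ij.1) (x ij.2) = 0 := by
              have e3 := congrFun h4 0
              have e4 := congrFun h4 1
              simp only [Pi.add_apply, Pi.smul_apply, smul_eq_mul, Pi.neg_apply] at e3 e4
              unfold dt
              linear_combination x ij.2 1 * e3 - x ij.2 0 * e4
            rcases mul_eq_zero.mp h5 with h6 | h6
            · have := hr k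
              linarith
            · exact hij h6
          · have h4 : dt (x (e t).1.1) (x (e t).1.2) = 0 := by
              by_contra h5
              have h6 := hmax _ h5
              have h7 : (o (e t).1 : ℕ) = (o ij : ℕ) := by
                have : (o (e t).1 : ℕ) ≤ (o ij : ℕ) := h6
                omega
              exact h3 (o.injective (Fin.ext h7))
            rw [e1, e2, ← hkl]
            unfold dt at h4 ⊢
            simp only [Pi.add_apply, Pi.smul_apply, smul_eq_mul]
            linear_combination (A' - A) * h4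
    have hcard := Fintype.card_le_of_injective g hg
    have hT : Fintype.card T = ν * ν + (o ij : ℕ) * B ^ (o ij : ℕ) + 1 := by
      simp only [T, Fintype.card_option, Fintype.card_sum, Fintype.card_prod, Fintype.card_fin]
    rw [hT, Fintype.card_fin] at hcard
    have ho : (o ij : ℕ) < ν * ν := (o ij).isLt
    have h1 : K ij = B * B ^ (o ij : ℕ) := by
      simp only [K]
      rw [pow_succ, mul_comm]
    rw [h1] at hcard
    have h2 : 0 < B ^ (o ij : ℕ) := Nat.pow_pos hB0
    rcases Nat.eq_zero_or_pos (o ij : ℕ) with h3 | h3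
    · rw [h3] at hcard
      simp at hcard
      omega
    · have h4 : B ≤ B ^ (o ij : ℕ) := Nat.le_self_pow h3.ne' B
      have h5 : ((o ij : ℕ) + 3) * B ^ (o ij : ℕ) ≤ B * B ^ (o ij : ℕ) :=
        Nat.mul_le_mul_right _ (by omega)
      have h6 : ((o ij : ℕ) + 3) * B ^ (o ij : ℕ) =
        (o ij : ℕ) * B ^ (o ij : ℕ) + 3 * B ^ (o ij : ℕ) := by ring
      omega

/-- In dimension three asymmetry holds if the number `s + 1` of cusps is odd and the vectors at any
three different cusps are independent. -/
theorem asymW_of_indep {s : ℕ} (hs : 0 < s) (he : Even s) (n : Fin s → Fin 3 → ℤ)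
    (h : ∀ i j k : Option (Fin s), i ≠ j → i ≠ k → j ≠ k → ∀ x y z : ℝ,
      x • rcusp n i + y • rcusp n j + z • rcusp n k = 0 → x = 0 ∧ y = 0 ∧ z = 0) :
    AsymW n := by
  classical
  have hcard : Fintype.card (Option (Fin s)) = s + 1 := by
    rw [Fintype.card_option, Fintype.card_fin]
  have hs3 : 2 < Fintype.card (Option (Fin s)) := by
    rw [hcard]
    obtain ⟨r, hr⟩ := he
    omega
  -- two vectors
  have h2 : ∀ i j : Option (Fin s), i ≠ j → ∀ x y : ℝ,
      x • rcusp n i + y • rcusp n j = 0 → x = 0 ∧ y = 0 := by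
    intro i j hij x y hxy
    obtain ⟨k, hk⟩ : ∃ k, k ∉ ({i, j} : Finset (Option (Fin s))) := by
      by_contra hcon
      push Not at hcon
      have h1 := Finset.card_le_card (fun k _ => hcon k :
        (Finset.univ : Finset (Option (Fin s))) ⊆ {i, j})
      rw [Finset.card_univ] at h1
      have h3 := Finset.card_le_two (a := i) (b := j)
      omega
    rw [Finset.mem_insert, Finset.mem_singleton, not_or] at hk
    have := h i j k hij (Ne.symm hk.1) (Ne.symm hk.2) x y 0 (by rw [hxy]; simp)
    exact ⟨this.1, this.2.1⟩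
  have hother : ∀ i : Option (Fin s), ∃ k, k ≠ i := by
    intro i
    by_contra hcon
    push Not at hcon
    have h1 := Finset.card_le_card (fun k _ => Finset.mem_singleton.mpr (hcon k) :
      (Finset.univ : Finset (Option (Fin s))) ⊆ {i})
    rw [Finset.card_univ, Finset.card_singleton] at h1
    omega
  intro W hW
  obtain ⟨m, -, hspan⟩ := finrank_eq_one_iff'.mp (by omega : Module.finrank ℝ W = 1)
  have hspan' : ∀ w ∈ W, ∃ c : ℝ, w = c • (m : Fin 3 → ℝ) := by
    intro w hw
    obtain ⟨c, hc⟩ := hspan ⟨w, hw⟩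
    refine ⟨c, ?_⟩
    have := congrArg Subtype.val hc
    exact this.symm
  by_contra hcon
  push Not at hcon
  -- no vector is in `W`
  have key : ∀ i, rcusp n i ∉ W → ∃ (j : Option (Fin s)) (p r : ℝ), 0 < p ∧
      rcusp n j + p • rcusp n i = r • (m : Fin 3 → ℝ) := by
    intro i hi
    obtain ⟨j, p, hp, hj⟩ := hcon i hi
    obtain ⟨r, hr⟩ := hspan' _ hj
    exact ⟨j, p, r, hp, hr⟩
  have hpar : ∀ i : Option (Fin s), rcusp n i ∉ W := by
    intro i hi
    obtain ⟨y, hy⟩ := hspan' _ hi
    have hy0 : y ≠ 0 := by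
      rintro rfl
      obtain ⟨k, hk⟩ := hother i
      exact one_ne_zero (h2 i k hk.symm 1 0 (by rw [hy]; simp)).1
    obtain ⟨k, hk⟩ := hother i
    have hkW : rcusp n k ∉ W := by
      intro hkW
      obtain ⟨z, hz⟩ := hspan' _ hkW
      have e1 : z • rcusp n i + (-y) • rcusp n k = 0 := by
        rw [hy, hz, smul_smul, smul_smul, ← add_smul]
        convert zero_smul ℝ _
        ring
      exact hy0 (neg_eq_zero.mp (h2 i k hk.symm _ _ e1).2)
    obtain ⟨j, p, r, hp, hj⟩ := key k hkW
    have e1 : y • rcusp n j + (y * p) • rcusp n k + (-r) • rcusp n i = 0 := by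
      have e2 : y • rcusp n j + (y * p) • rcusp n k = r • rcusp n i := by
        rw [mul_smul, ← smul_add, hj, hy, smul_smul, smul_smul, mul_comm]
      rw [e2, neg_smul, add_neg_cancel]
    have hyp : y * p ≠ 0 := mul_ne_zero hy0 hp.ne'
    by_cases c1 : j = k
    · rw [c1, ← add_smul] at e1
      have h3 := (h2 k i hk _ _ e1).1
      have h4 : y * (1 + p) = 0 := by linarith
      rcases mul_eq_zero.mp h4 with h5 | h5
      · exact hy0 h5
      · linarith
    · by_cases c2 : j = i
      · rw [c2, add_right_comm, ← add_smul] at e1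
        exact hyp (h2 i k hk.symm _ _ e1).2
      · exact hy0 (h j k i c1 c2 hk _ _ _ e1).1
  choose f p r hp hf using fun i => key i (hpar i)
  have hm : (m : Fin 3 → ℝ) ∈ W := m.2
  have hne : ∀ i, f i ≠ i := by
    intro i hi
    have h1 := hf i
    rw [hi, ← one_smul ℝ (rcusp n i), smul_smul, mul_one, ← add_smul] at h1
    apply hpar i
    have h3 : (1 + p i) ≠ 0 := by
      have := hp i
      positivity
    have h4 : rcusp n i = ((1 + p i)⁻¹ * r i) • (m : Fin 3 → ℝ) := by
      rw [mul_smul, ← h1, smul_smul, inv_mul_cancel₀ h3, one_smul]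
    rw [h4]
    exact W.smul_mem _ hm
  have hinv : ∀ i, f (f i) = i := by
    intro i
    by_contra hcon
    have h1 := hf i
    have h3 := hf (f i)
    have hr : r i ≠ 0 := by
      intro h0
      rw [h0, zero_smul] at h1
      exact one_ne_zero (h2 (f i) i (hne i) 1 _ (by rw [one_smul]; exact h1)).1
    have e1 : r i • rcusp n (f (f i)) + (r i * p (f i) - r (f i)) • rcusp n (f i) +
        (-(r (f i) * p i)) • rcusp n i = 0 := by
      have e2 : r i • (rcusp n (f (f i)) + p (f i) • rcusp n (f i)) =
          r (f i) • (rcusp n (f i) + p i • rcusp n i) := by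
        rw [h1, h3, smul_smul, smul_smul, mul_comm]
      rw [smul_add, smul_add, smul_smul, smul_smul] at e2
      rw [sub_smul, neg_smul, add_sub, e2]
      abel
    exact hr (h _ _ _ (hne (f i)) hcon (hne i) _ _ _ e1).1
  have hodd : Fintype.card (Option (Fin s)) ≡
      Fintype.card (Function.fixedPoints f) [MOD 2] := by
    refine Equiv.Perm.card_fixedPoints_modEq (f := (f : Function.End (Option (Fin s))))
      (p := 2) (n := 1) ?_
    funext i
    exact hinv i
  have hfix : Fintype.card (Function.fixedPoints f) = 0 := by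
    rw [Fintype.card_eq_zero_iff]
    exact ⟨fun x => hne x.1 x.2⟩
  rw [hfix, hcard] at hodd
  obtain ⟨t, ht⟩ := he
  have : (s + 1) % 2 = 0 := hodd
  omega


end Pool.Agent.Work.MP_7da6af_nt.Rat2
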