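import Pool.Agent.Work.MP_7da6af_nt.Rat.Opp

/-! # Rational curves in tori of any dimension -/

set_option autoImplicit false

namespace Pool.Agent.Work.MP_7da6af_nt.Rat2

open Polynomial
open Pool.Agent.Work.MP_7da6af_nt.Rat (G cusp)

section

variable {K : Type} [Field K] {s N : ℕ}

/-- the exponents of a monomial in the coordinates -/
def ex (n : Fin s → Fin N → ℤ) (κ : Fin N → ℤ) (i : Fin s) : ℤ := ∑ l, κ l * n i l

/-- the point with parameter `y` -/
noncomputable def F (a : Fin s → K) (n : Fin s → Fin N → ℤ) (c : Fin N → K) (y : K)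
    (l : Fin N) : K := c l * ∏ i, (y - a i) ^ n i l

theorem F_eq_G (a : Fin s → K) (n : Fin s → Fin N → ℤ) (c : Fin N → K) (y : K) (l : Fin N) :
    F a n c y l = c l * G a (fun i => n i l) y := rfl

theorem G_ne_zero (a : Fin s → K) (e : Fin s → ℤ) (y : K) (hy : ∀ i, y ≠ a i) :
    G a e y ≠ 0 :=
  Finset.prod_ne_zero_iff.mpr fun i _ => zpow_ne_zero _ (sub_ne_zero.mpr (hy i))

theorem F_ne_zero (a : Fin s → K) (n : Fin s → Fin N → ℤ) (c : Fin N → K) (hc : ∀ l, c l ≠ 0)
    (y : K) (hy : ∀ i, y ≠ a i) (l : Fin N) : F a n c y l ≠ 0 :=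
  mul_ne_zero (hc l) (G_ne_zero a _ y hy)

theorem prod_F (a : Fin s → K) (n : Fin s → Fin N → ℤ) (c : Fin N → K) (y : K)
    (hy : ∀ i, y ≠ a i) (κ : Fin N → ℤ) :
    ∏ l, F a n c y l ^ κ l = (∏ l, c l ^ κ l) * G a (ex n κ) y := by
  unfold F G ex
  simp only [mul_zpow]
  rw [Finset.prod_mul_distrib]
  congr 1
  simp only [← Finset.prod_zpow]
  rw [Finset.prod_comm]
  refine Finset.prod_congr rfl fun i _ => ?_
  have h0 : y - a i ≠ 0 := sub_ne_zero.mpr (hy i)
  have h1 : ∀ S : Finset (Fin N), ∏ l ∈ S, ((y - a i) ^ n i l) ^ κ l =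
      (y - a i) ^ ∑ l ∈ S, κ l * n i l := by
    classical
    intro S
    induction S using Finset.induction_on with
    | empty => simp
    | insert l S hl ih =>
      rw [Finset.prod_insert hl, Finset.sum_insert hl, zpow_add₀ h0, ih, ← zpow_mul, mul_comm (κ l)]
  exact h1 _

/-- the exponent vectors at the cusps -/
def cv (n : Fin s → Fin N → ℤ) (j : Option (Fin s)) (l : Fin N) : ℤ := cusp (fun i => n i l) j

theorem cv_some (n : Fin s → Fin N → ℤ) (i : Fin s) (l : Fin N) : cv n (some i) l = n i l := rfl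

theorem cv_none (n : Fin s → Fin N → ℤ) (l : Fin N) : cv n none l = -∑ i, n i l := rfl

theorem cusp_ex (n : Fin s → Fin N → ℤ) (κ : Fin N → ℤ) (j : Option (Fin s)) :
    cusp (ex n κ) j = ∑ l, κ l * cv n j l := by
  cases j with
  | some i => rfl
  | none =>
    simp only [cv, cusp, ex]
    rw [Finset.sum_comm]
    simp only [← Finset.mul_sum, mul_neg, Finset.sum_neg_distrib]

/-- the value of a real linear form at the vector of a cusp -/
noncomputable def lv (n : Fin s → Fin N → ℤ) (p : Fin N → ℝ) (j : Option (Fin s)) : ℝ :=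
  ∑ l, p l * (cv n j l : ℝ)

theorem sum_lv (n : Fin s → Fin N → ℤ) (p : Fin N → ℝ) : ∑ j, lv n p j = 0 := by
  rw [Fintype.sum_option]
  unfold lv
  simp only [cv_some, cv_none]
  push_cast
  rw [Finset.sum_comm, ← Finset.sum_add_distrib]
  refine Finset.sum_eq_zero fun l _ => ?_
  rw [← Finset.mul_sum]
  ring

/-- modulo every real subspace of codimension two the vectors at the cusps do not come in opposite
pairs: for independent real linear forms `p` and `q`, one of the vectors `(p v, q v)`, `v` the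
vector of a cusp, is not zero and has no negative multiple among these vectors -/
def AsymR (n : Fin s → Fin N → ℤ) : Prop :=
  ∀ p q : Fin N → ℝ, LinearIndependent ℝ ![p, q] → ∃ i : Option (Fin s),
    (lv n p i ≠ 0 ∨ lv n q i ≠ 0) ∧ ∀ (j : Option (Fin s)) (x : ℝ), 0 < x →
      ¬ (lv n p j = -(x * lv n p i) ∧ lv n q j = -(x * lv n q i))

end

end Pool.Agent.Work.MP_7da6af_nt.Rat2
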