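import Pool.Agent.Work.MP_7da6af_nt.Rat2.Curve

/-! # Transversality of rational curves with asymmetric cusps -/

set_option autoImplicit false

namespace Pool.Agent.Work.MP_7da6af_nt.Rat2

open Pool.Agent.Work.MP_7da6af_nt.Rat (G cusp)

variable {s ν : ℕ} (n : Fin s → Fin ν → ℤ)

theorem ex_ne_zero (hinf : cv n none ≠ 0) (hasym : AsymR n) (κ : Fin ν → ℤ) (hκ : κ ≠ 0) :
    ex n κ ≠ 0 := by
  intro h0
  obtain ⟨l₀, hl₀⟩ : ∃ l, κ l ≠ 0 := by
    by_contra hcon
    push Not at hcon
    exact hκ (funext hcon)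
  have hcv : ∀ j, ∑ l, κ l * cv n j l = 0 := by
    intro j
    rw [← cusp_ex, h0]
    cases j with
    | none => simp [cusp]
    | some i => rfl
  by_cases hl : ∃ l₁, l₁ ≠ l₀
  · obtain ⟨l₁, hl₁⟩ := hl
    set p : Fin ν → ℝ := fun l => (κ l : ℝ) with hp
    set q : Fin ν → ℝ := Pi.single l₁ 1 with hq
    have hpq : LinearIndependent ℝ ![p, q] := by
      rw [LinearIndependent.pair_iff]
      intro x y hxy
      have h1 := congrFun hxy l₀
      simp only [Pi.add_apply, Pi.smul_apply, smul_eq_mul, Pi.zero_apply, hp, hq,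
        Pi.single_eq_of_ne hl₁.symm, mul_zero, add_zero] at h1
      have hx : x = 0 := (mul_eq_zero.mp h1).resolve_right (by exact_mod_cast hl₀)
      have h2 := congrFun hxy l₁
      simp only [Pi.add_apply, Pi.smul_apply, smul_eq_mul, Pi.zero_apply, hp, hq, hx, zero_mul,
        zero_add, Pi.single_eq_same, mul_one] at h2
      exact ⟨hx, h2⟩
    obtain ⟨i, hi, hop⟩ := hasym p q hpq
    have hzero : ∀ j, lv n p j = 0 := by
      intro j
      unfold lv
      have := hcv j
      simp only [hp]
      exact_mod_cast this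
    have hqi : lv n q i ≠ 0 := hi.resolve_left (fun h => h (hzero i))
    obtain ⟨j, hj⟩ : ∃ j, lv n q j * lv n q i < 0 := by
      by_contra hcon
      push Not at hcon
      have h1 : ∑ j, lv n q j * lv n q i = 0 := by
        rw [← Finset.sum_mul, sum_lv, zero_mul]
      have h2 := (Finset.sum_eq_zero_iff_of_nonneg fun j _ => hcon j).mp h1 i (Finset.mem_univ i)
      exact hqi (mul_self_eq_zero.mp h2)
    refine hop j (-(lv n q j * lv n q i) / (lv n q i) ^ 2) ?_ ⟨?_, ?_⟩
    · have : 0 < (lv n q i) ^ 2 := by positivity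
      exact div_pos (neg_pos.mpr hj) this
    · rw [hzero, hzero]
      simp
    · field_simp
  · push Not at hl
    apply hinf
    funext l
    have h1 := hcv none
    rw [Finset.sum_eq_single l₀ (fun b _ hb => absurd (hl b) hb)
      (fun h => absurd (Finset.mem_univ _) h)] at h1
    rw [hl l]
    exact (mul_eq_zero.mp h1).resolve_left hl₀

end Pool.Agent.Work.MP_7da6af_nt.Rat2
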